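import Pool.Agent.H63.TC.Stmts

/-!
# Module EQV: equivariance of the transversal component (helper90)
-/

open Complex Metric Set Filter Topology

namespace Pool.Agent.H63.TC

lemma eqv_mem {q : ℂ × ℂ} (hq : q ∈ YY) (m n : ℤ) :
    (q.1, q.2 + 2 * m * q.1 + 2 * n) ∈ YY := by
  refine ⟨hq.1, ?_⟩
  intro hl
  apply hq.2
  have h1 : Lat q.1 ((2 * m : ℤ) * q.1 + (2 * n : ℤ)) := lat_int _ _ _
  have h2 : q.2 + 2 * m * q.1 + 2 * n = q.2 + ((2 * m : ℤ) * q.1 + (2 * n : ℤ)) := by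
    push_cast; ring
  simp only at hl
  rw [h2] at hl
  exact (lat_add_iff h1).1 hl

lemma eqv_yy (hinv : InvStmt) {q : ℂ × ℂ} (hq : q ∈ YY) (m n : ℤ) :
    yy q.1 (q.2 + 2 * m * q.1 + 2 * n) = yy q.1 q.2 := by
  have hG : G2 1 0 0 1 := ⟨by norm_num, odd_one, Even.zero, Even.zero, odd_one⟩
  have h := (hinv 1 0 0 1 m n hG q hq).2
  have h2 := congrArg Prod.snd h
  simpa [Phi, act] using h2

lemma eqv_yu (hinv : InvStmt) {q : ℂ × ℂ} (hq : q ∈ YY) (m n : ℤ) :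
    yu (q.1, q.2 + 2 * m * q.1 + 2 * n) = yu q := by
  simp only [yu]
  have h1 : deriv (yy q.1) (q.2 + (2 * m * q.1 + 2 * n)) =
      deriv (fun w => yy q.1 (w + (2 * m * q.1 + 2 * n))) q.2 :=
    (deriv_comp_add_const (yy q.1) (2 * m * q.1 + 2 * n) q.2).symm
  rw [add_assoc, h1]
  apply Filter.EventuallyEq.deriv_eq
  have h2 : ContinuousAt (fun w : ℂ => ((q.1, w) : ℂ × ℂ)) q.2 := by fun_prop
  filter_upwards [h2.eventually (isOpen_YY.mem_nhds hq)] with w hw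
  have := eqv_yy hinv (q := (q.1, w)) hw m n
  simp only at this
  rw [← add_assoc]
  exact this

lemma eqv_yt (hinv : InvStmt) (hphd : PhdStmt) {q : ℂ × ℂ} (hq : q ∈ YY) (m n : ℤ) :
    yt (q.1, q.2 + 2 * m * q.1 + 2 * n) + 2 * m * yu q = yt q := by
  have hq' := eqv_mem hq m n
  obtain ⟨-, -, -, -, -, L, hL, hLv⟩ := hphd _ hq'
  -- the curve
  have hc : HasDerivAt (fun τ : ℂ => ((τ, q.2 + 2 * m * τ + 2 * n) : ℂ × ℂ))
      ((1, 2 * m) : ℂ × ℂ) q.1 := by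
    have e1 : HasDerivAt (fun τ : ℂ => τ) 1 q.1 := hasDerivAt_id _
    have e2 : HasDerivAt (fun τ : ℂ => q.2 + 2 * m * τ + 2 * n) (2 * m : ℂ) q.1 := by
      have := ((e1.const_mul (2 * m : ℂ)).const_add q.2).add_const (2 * n : ℂ)
      simpa using this
    exact e1.prodMk e2
  have h1 : HasDerivAt (fun τ : ℂ => Phi (τ, q.2 + 2 * m * τ + 2 * n)) (L (1, 2 * m)) q.1 :=
    HasFDerivAt.comp_hasDerivAt (l := Phi) (l' := (L : (ℂ × ℂ) →L[ℂ] (ℂ × ℂ)))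
      (f := fun τ : ℂ => ((τ, q.2 + 2 * m * τ + 2 * n) : ℂ × ℂ)) q.1 hL.hasFDerivAt hc
  have h2 : HasDerivAt (fun τ : ℂ => yy τ (q.2 + 2 * m * τ + 2 * n)) (L (1, 2 * m)).2 q.1 := by
    have := (ContinuousLinearMap.snd ℂ ℂ ℂ).hasFDerivAt.comp_hasDerivAt q.1 h1
    simpa [Function.comp_def, Phi] using this
  have h3 : HasDerivAt (fun τ : ℂ => yy τ q.2) (L (1, 2 * m)).2 q.1 := by
    refine h2.congr_of_eventuallyEq ?_
    have h4 : ContinuousAt (fun τ : ℂ => ((τ, q.2) : ℂ × ℂ)) q.1 := by fun_prop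
    filter_upwards [h4.eventually (isOpen_YY.mem_nhds hq)] with τ hτ
    have := eqv_yy hinv (q := (τ, q.2)) hτ m n
    simp only at this
    exact this.symm
  have h5 : yt q = (L (1, 2 * m)).2 := h3.deriv
  rw [h5, hLv, eqv_yu hinv hq]
  ring

theorem eqv (hinv : InvStmt) (hphd : PhdStmt) : EqvStmt := by
  intro V _ _ A W g m n _ hW ξ p
  have h1 : W.hh (fun q => ξ (g.symm q)) (g p) = W.hh ξ p := by
    simp only [Ell.hh, hW, Homeomorph.symm_apply_apply]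
  refine ⟨h1, ?_⟩
  simp only [Ell.kk, Homeomorph.symm_apply_apply]
  rw [h1, hW, eqv_yu hinv (W.mem p)]
  have h2 := eqv_yt hinv hphd (W.mem p) m n
  have h3 : yt ((W.W p).1, (W.W p).2 + 2 * m * (W.W p).1 + 2 * n) =
      yt (W.W p) - 2 * m * yu (W.W p) := by
    rw [← h2]; ring
  rw [h3]
  have h4 := (hphd _ (W.mem p)).2.2.1
  field_simp
  ring

end Pool.Agent.H63.TC
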