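import Pool.Agent.H90.TC.Pars

/-!
# Module L2C: bounded holomorphic functions are nearly constant in `L²` at the boundary (helper90)
-/

open Complex Metric Set Filter Topology MeasureTheory

namespace Pool.Agent.H63.TC

/-- Taylor coefficients. -/
noncomputable def l2cA (g : ℝ → ℂ → ℂ) (b : ℝ) (m : ℕ) : ℂ :=
  (m.factorial : ℂ)⁻¹ * iteratedDeriv m (g b) 0

section
variable {g : ℝ → ℂ → ℂ} {M : ℝ}

lemma l2c_taylor (hd : ∀ b, DifferentiableOn ℂ (g b) (ball 0 1)) (b : ℝ) {z : ℂ}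
    (hz : z ∈ ball (0 : ℂ) 1) : HasSum (fun m : ℕ => l2cA g b m * z ^ m) (g b z) := by
  have h := Complex.hasSum_taylorSeries_on_ball (r := 1) (c := 0) (f := g b)
    (by simpa using hd b) (z := z) (by simpa using hz)
  refine h.congr_fun ?_
  intro m
  simp only [l2cA, sub_zero, smul_eq_mul]
  ring

lemma l2c_norm_le (hd : ∀ b, DifferentiableOn ℂ (g b) (ball 0 1))
    (hM : ∀ b, ∀ z ∈ ball (0 : ℂ) 1, ‖g b z‖ ≤ M) (b : ℝ) (m : ℕ) : ‖l2cA g b m‖ ≤ M := by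
  have h1 : ∀ ρ ∈ Ioo (0 : ℝ) 1, ‖l2cA g b m‖ * ρ ^ m ≤ M := by
    intro ρ hρ
    have h2 := Complex.norm_iteratedDeriv_le_of_forall_mem_sphere_norm_le m hρ.1
      ((hd b).diffContOnCl_ball (closedBall_subset_ball hρ.2)) (C := M) (fun z hz => hM b z (by
        rw [mem_sphere_zero_iff_norm] at hz
        rw [mem_ball_zero_iff, hz]; exact hρ.2))
    rw [l2cA, norm_mul, norm_inv, Complex.norm_natCast]
    have h3 : (0 : ℝ) < m.factorial := by exact_mod_cast Nat.factorial_pos m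
    have h4 : (0 : ℝ) < ρ ^ m := pow_pos hρ.1 m
    rw [le_div_iff₀ h4] at h2
    calc (m.factorial : ℝ)⁻¹ * ‖iteratedDeriv m (g b) 0‖ * ρ ^ m
        = (m.factorial : ℝ)⁻¹ * (‖iteratedDeriv m (g b) 0‖ * ρ ^ m) := by ring
      _ ≤ (m.factorial : ℝ)⁻¹ * (m.factorial * M) := mul_le_mul_of_nonneg_left h2 (by positivity)
      _ = M := by field_simp
  have h2 : Tendsto (fun ρ : ℝ => ‖l2cA g b m‖ * ρ ^ m) (𝓝[<] 1) (𝓝 (‖l2cA g b m‖ * 1 ^ m)) := by
    apply Tendsto.mono_left _ nhdsWithin_le_nhds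
    have : Continuous (fun ρ : ℝ => ‖l2cA g b m‖ * ρ ^ m) := by fun_prop
    exact this.tendsto 1
  rw [one_pow, mul_one] at h2
  refine le_of_tendsto h2 ?_
  filter_upwards [Ioo_mem_nhdsLT (show (0 : ℝ) < 1 by norm_num)] with ρ hρ
  exact h1 ρ hρ

lemma l2c_summable (hd : ∀ b, DifferentiableOn ℂ (g b) (ball 0 1))
    (hM : ∀ b, ∀ z ∈ ball (0 : ℂ) 1, ‖g b z‖ ≤ M) (b : ℝ) {w : ℂ} (hw : w ∈ ball (0 : ℂ) 1) :
    Summable fun m : ℕ => ‖l2cA g b m * w ^ m‖ := by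
  rw [mem_ball_zero_iff] at hw
  refine Summable.of_nonneg_of_le (fun _ => norm_nonneg _) (fun m => ?_)
    ((summable_geometric_of_lt_one (norm_nonneg w) hw).mul_left M)
  rw [norm_mul, norm_pow]
  exact mul_le_mul_of_nonneg_right (l2c_norm_le hd hM b m) (by positivity)

lemma l2c_mem {w : ℂ} (hw : w ∈ ball (0 : ℂ) 1) (θ : ℝ) : exp (θ * I) * w ∈ ball (0 : ℂ) 1 := by
  rw [mem_ball_zero_iff, norm_mul, norm_exp_ofReal_mul_I, one_mul]
  simpa using hw

lemma l2c_parsF (hd : ∀ b, DifferentiableOn ℂ (g b) (ball 0 1)) (b : ℝ) {w : ℂ}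
    (hw : w ∈ ball (0 : ℂ) 1) (θ : ℝ) :
    HasSum (fun m : ℕ => l2cA g b m * w ^ m * exp (m * I * θ)) (g b (exp (θ * I) * w)) := by
  refine (l2c_taylor hd b (l2c_mem hw θ)).congr_fun ?_
  intro m
  have : exp (m * I * θ) = exp (θ * I) ^ m := by
    rw [← Complex.exp_nat_mul]; congr 1; ring
  rw [this, mul_pow]; ring

/-- Parseval for the difference. -/
lemma l2c_pars (hd : ∀ b, DifferentiableOn ℂ (g b) (ball 0 1))
    (hM : ∀ b, ∀ z ∈ ball (0 : ℂ) 1, ‖g b z‖ ≤ M) (b b' : ℝ) {w w' : ℂ}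
    (hw : w ∈ ball (0 : ℂ) 1) (hw' : w' ∈ ball (0 : ℂ) 1) :
    HasSum (fun m : ℕ => ‖l2cA g b m * w ^ m - l2cA g b' m * w' ^ m‖ ^ 2)
      ((2 * Real.pi)⁻¹ * ∫ θ in (0 : ℝ)..(2 * Real.pi),
        ‖g b (exp (θ * I) * w) - g b' (exp (θ * I) * w')‖ ^ 2) := by
  have hc : Summable fun m : ℕ => ‖l2cA g b m * w ^ m - l2cA g b' m * w' ^ m‖ := by
    refine Summable.of_nonneg_of_le (fun _ => norm_nonneg _) (fun m => norm_sub_le _ _)
      ((l2c_summable hd hM b hw).add (l2c_summable hd hM b' hw'))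
  have h := pars hc
  have h2 : ∀ θ : ℝ, parsF (fun m : ℕ => l2cA g b m * w ^ m - l2cA g b' m * w' ^ m) θ =
      g b (exp (θ * I) * w) - g b' (exp (θ * I) * w') := by
    intro θ
    refine (pars_hasSum hc θ).unique ?_
    refine ((l2c_parsF hd b hw θ).sub (l2c_parsF hd b' hw' θ)).congr_fun ?_
    intro m
    ring
  simpa only [h2] using h

lemma l2c_pars_one (hd : ∀ b, DifferentiableOn ℂ (g b) (ball 0 1))
    (hM : ∀ b, ∀ z ∈ ball (0 : ℂ) 1, ‖g b z‖ ≤ M) (b : ℝ) {w : ℂ}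
    (hw : w ∈ ball (0 : ℂ) 1) :
    HasSum (fun m : ℕ => ‖l2cA g b m * w ^ m‖ ^ 2)
      ((2 * Real.pi)⁻¹ * ∫ θ in (0 : ℝ)..(2 * Real.pi), ‖g b (exp (θ * I) * w)‖ ^ 2) := by
  have hc := l2c_summable hd hM b hw
  have h := pars hc
  have h2 : ∀ θ : ℝ, parsF (fun m : ℕ => l2cA g b m * w ^ m) θ = g b (exp (θ * I) * w) :=
    fun θ => (pars_hasSum hc θ).unique (l2c_parsF hd b hw θ)
  simpa only [h2] using h

lemma l2c_contθ (hd : ∀ b, DifferentiableOn ℂ (g b) (ball 0 1)) (b : ℝ) {w : ℂ}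
    (hw : w ∈ ball (0 : ℂ) 1) : Continuous fun θ : ℝ => g b (exp (θ * I) * w) :=
  (hd b).continuousOn.comp_continuous (by fun_prop) (fun θ => l2c_mem hw θ)

/-- Bessel. -/
lemma l2c_bessel (hd : ∀ b, DifferentiableOn ℂ (g b) (ball 0 1))
    (hM : ∀ b, ∀ z ∈ ball (0 : ℂ) 1, ‖g b z‖ ≤ M) (b : ℝ) (N : ℕ) :
    ∑ m ∈ Finset.range N, ‖l2cA g b m‖ ^ 2 ≤ M ^ 2 := by
  have hM0 : 0 ≤ M := (norm_nonneg _).trans (hM b 0 (mem_ball_self one_pos))
  have h1 : ∀ ρ ∈ Ioo (0 : ℝ) 1, ∑ m ∈ Finset.range N, ‖l2cA g b m‖ ^ 2 * (ρ ^ m) ^ 2 ≤ M ^ 2 := by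
    intro ρ hρ
    have hw : (ρ : ℂ) ∈ ball (0 : ℂ) 1 := by
      rw [mem_ball_zero_iff, Complex.norm_real, Real.norm_of_nonneg hρ.1.le]; exact hρ.2
    have h2 := l2c_pars_one hd hM b hw
    have h3 : ∑ m ∈ Finset.range N, ‖l2cA g b m * (ρ : ℂ) ^ m‖ ^ 2 ≤ _ :=
      sum_le_hasSum _ (fun m _ => by positivity) h2
    have h4 : (2 * Real.pi)⁻¹ * ∫ θ in (0 : ℝ)..(2 * Real.pi), ‖g b (exp (θ * I) * ρ)‖ ^ 2 ≤
        (2 * Real.pi)⁻¹ * ∫ _θ in (0 : ℝ)..(2 * Real.pi), M ^ 2 := by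
      have hpi := Real.pi_pos
      refine mul_le_mul_of_nonneg_left ?_ (by positivity)
      refine intervalIntegral.integral_mono_on (by positivity) ?_ (by simp) ?_
      · exact ((l2c_contθ hd b hw).norm.pow 2).intervalIntegrable _ _
      · intro θ _
        have := hM b _ (l2c_mem hw θ)
        gcongr
    have h5 : (2 * Real.pi)⁻¹ * ∫ _θ in (0 : ℝ)..(2 * Real.pi), M ^ 2 = M ^ 2 := by
      rw [intervalIntegral.integral_const, smul_eq_mul]
      have hpi := Real.pi_pos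
      field_simp
      ring
    calc ∑ m ∈ Finset.range N, ‖l2cA g b m‖ ^ 2 * (ρ ^ m) ^ 2
        = ∑ m ∈ Finset.range N, ‖l2cA g b m * (ρ : ℂ) ^ m‖ ^ 2 := by
          apply Finset.sum_congr rfl
          intro m _
          rw [norm_mul, norm_pow, Complex.norm_real, Real.norm_of_nonneg hρ.1.le, mul_pow]
      _ ≤ _ := h3
      _ ≤ _ := h4
      _ = M ^ 2 := h5
  have h2 : Tendsto (fun ρ : ℝ => ∑ m ∈ Finset.range N, ‖l2cA g b m‖ ^ 2 * (ρ ^ m) ^ 2)
      (𝓝[<] 1) (𝓝 (∑ m ∈ Finset.range N, ‖l2cA g b m‖ ^ 2 * (1 ^ m) ^ 2)) := by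
    apply Tendsto.mono_left _ nhdsWithin_le_nhds
    have : Continuous (fun ρ : ℝ => ∑ m ∈ Finset.range N, ‖l2cA g b m‖ ^ 2 * (ρ ^ m) ^ 2) := by
      fun_prop
    exact this.tendsto 1
  simp only [one_pow, mul_one] at h2
  refine le_of_tendsto h2 ?_
  filter_upwards [Ioo_mem_nhdsLT (show (0 : ℝ) < 1 by norm_num)] with ρ hρ
  exact h1 ρ hρ

lemma l2c_sq_summable (hd : ∀ b, DifferentiableOn ℂ (g b) (ball 0 1))
    (hM : ∀ b, ∀ z ∈ ball (0 : ℂ) 1, ‖g b z‖ ≤ M) (b : ℝ) :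
    Summable fun m => ‖l2cA g b m‖ ^ 2 :=
  summable_of_sum_range_le (fun _ => by positivity) (l2c_bessel hd hM b)

/-- the tails -/
noncomputable def l2cT (g : ℝ → ℂ → ℂ) (N : ℕ) (b : ℝ) : ℝ := ∑' m, ‖l2cA g b (m + N)‖ ^ 2

lemma l2cT_nonneg (N : ℕ) (b : ℝ) : 0 ≤ l2cT g N b := tsum_nonneg fun _ => by positivity

lemma l2cT_le (hd : ∀ b, DifferentiableOn ℂ (g b) (ball 0 1))
    (hM : ∀ b, ∀ z ∈ ball (0 : ℂ) 1, ‖g b z‖ ≤ M) (N : ℕ) (b : ℝ) : l2cT g N b ≤ M ^ 2 := by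
  have h1 := (l2c_sq_summable hd hM b).sum_add_tsum_nat_add N
  have h2 : ∑' m, ‖l2cA g b m‖ ^ 2 ≤ M ^ 2 :=
    Real.tsum_le_of_sum_range_le (fun _ => by positivity) (l2c_bessel hd hM b)
  have h3 : 0 ≤ ∑ m ∈ Finset.range N, ‖l2cA g b m‖ ^ 2 :=
    Finset.sum_nonneg fun _ _ => by positivity
  rw [l2cT]
  linarith

lemma l2cA_continuous (hc : ContinuousOn (fun q : ℝ × ℂ => g q.1 q.2) (univ ×ˢ ball 0 1))
    (hd : ∀ b, DifferentiableOn ℂ (g b) (ball 0 1))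
    (hM : ∀ b, ∀ z ∈ ball (0 : ℂ) 1, ‖g b z‖ ≤ M) (m : ℕ) :
    Continuous fun b => l2cA g b m := by
  have hw : (1 / 2 : ℂ) ∈ ball (0 : ℂ) 1 := by
    rw [mem_ball_zero_iff]; norm_num
  have h1 : ∀ b, l2cA g b m = 2 ^ m * (2 * Real.pi : ℂ)⁻¹ *
      ∫ θ in (0 : ℝ)..(2 * Real.pi), exp (-((m : ℤ) * I * θ)) * g b (exp (θ * I) * (1 / 2)) := by
    intro b
    have hs := l2c_summable hd hM b hw
    have h2 := pars_coeff hs (m : ℤ)
    have h3 : ∀ θ : ℝ, parsF (fun m : ℕ => l2cA g b m * (1 / 2 : ℂ) ^ m) θ =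
        g b (exp (θ * I) * (1 / 2)) :=
      fun θ => (pars_hasSum hs θ).unique (l2c_parsF hd b hw θ)
    simp only [h3] at h2
    rw [if_pos (by positivity), Int.toNat_natCast] at h2
    rw [h2]
    have hpi : (Real.pi : ℂ) ≠ 0 := by exact_mod_cast Real.pi_ne_zero
    have h2m : (2 : ℂ) ^ m * (1 / 2) ^ m = 1 := by rw [← mul_pow]; norm_num
    calc l2cA g b m = l2cA g b m * ((2 : ℂ) ^ m * (1 / 2) ^ m) := by rw [h2m, mul_one]
      _ = 2 ^ m * (2 * Real.pi : ℂ)⁻¹ * (2 * Real.pi * (l2cA g b m * (1 / 2) ^ m)) := by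
        field_simp
  simp only [h1]
  refine continuous_const.mul ?_
  apply intervalIntegral.continuous_parametric_intervalIntegral_of_continuous'
  refine Continuous.mul (by fun_prop) ?_
  refine hc.comp_continuous (f := fun q : ℝ × ℝ => ((q.1, exp (q.2 * I) * (1 / 2)) : ℝ × ℂ))
    (by fun_prop) ?_
  intro q
  exact ⟨mem_univ _, l2c_mem hw q.2⟩

lemma l2cT_measurable (hc : ContinuousOn (fun q : ℝ × ℂ => g q.1 q.2) (univ ×ˢ ball 0 1))
    (hd : ∀ b, DifferentiableOn ℂ (g b) (ball 0 1))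
    (hM : ∀ b, ∀ z ∈ ball (0 : ℂ) 1, ‖g b z‖ ≤ M) (N : ℕ) : Measurable (l2cT g N) := by
  refine measurable_of_tendsto_metrizable
    (f := fun k b => ∑ m ∈ Finset.range k, ‖l2cA g b (m + N)‖ ^ 2) ?_ ?_
  · intro k
    apply Continuous.measurable
    exact continuous_finsetSum _ fun m _ => (l2cA_continuous hc hd hM (m + N)).norm.pow 2
  · rw [tendsto_pi_nhds]
    intro b
    exact ((summable_nat_add_iff N).2 (l2c_sq_summable hd hM b)).hasSum.tendsto_sum_nat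

lemma l2cT_integrable (hc : ContinuousOn (fun q : ℝ × ℂ => g q.1 q.2) (univ ×ˢ ball 0 1))
    (hd : ∀ b, DifferentiableOn ℂ (g b) (ball 0 1))
    (hM : ∀ b, ∀ z ∈ ball (0 : ℂ) 1, ‖g b z‖ ≤ M) (N : ℕ) (a b : ℝ) :
    IntervalIntegrable (l2cT g N) volume a b := by
  refine IntervalIntegrable.mono_fun (g := l2cT g N) (f := fun _ => M ^ 2)
    intervalIntegrable_const (l2cT_measurable hc hd hM N).aestronglyMeasurable ?_
  refine Filter.Eventually.of_forall fun x => ?_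
  simp only
  rw [Real.norm_of_nonneg (l2cT_nonneg N x), Real.norm_of_nonneg (by positivity)]
  exact l2cT_le hd hM N x

lemma l2cT_tendsto (hc : ContinuousOn (fun q : ℝ × ℂ => g q.1 q.2) (univ ×ˢ ball 0 1))
    (hd : ∀ b, DifferentiableOn ℂ (g b) (ball 0 1))
    (hM : ∀ b, ∀ z ∈ ball (0 : ℂ) 1, ‖g b z‖ ≤ M) (a b : ℝ) :
    Tendsto (fun N => ∫ x in a..b, l2cT g N x) atTop (𝓝 0) := by
  have h := intervalIntegral.tendsto_integral_filter_of_dominated_convergence (a := a) (b := b)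
    (μ := volume) (l := atTop) (F := fun N x => l2cT g N x) (f := fun _ => (0 : ℝ))
    (fun _ => M ^ 2) ?_ ?_ ?_ ?_
  · simpa using h
  · exact Filter.Eventually.of_forall fun N => (l2cT_measurable hc hd hM N).aestronglyMeasurable
  · refine Filter.Eventually.of_forall fun N => Filter.Eventually.of_forall fun x _ => ?_
    rw [Real.norm_of_nonneg (l2cT_nonneg N x)]
    exact l2cT_le hd hM N x
  · exact intervalIntegrable_const
  · refine Filter.Eventually.of_forall fun x _ => ?_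
    exact tendsto_sum_nat_add fun m => ‖l2cA g x m‖ ^ 2

/-- pointwise splitting -/
lemma l2c_split (hd : ∀ b, DifferentiableOn ℂ (g b) (ball 0 1))
    (hM : ∀ b, ∀ z ∈ ball (0 : ℂ) 1, ‖g b z‖ ≤ M) (b b' : ℝ) {w w' : ℂ}
    (hw : w ∈ ball (0 : ℂ) 1) (hw' : w' ∈ ball (0 : ℂ) 1) (N : ℕ) :
    ∫ θ in (0 : ℝ)..(2 * Real.pi), ‖g b (exp (θ * I) * w) - g b' (exp (θ * I) * w')‖ ^ 2 ≤
      2 * Real.pi * (∑ m ∈ Finset.range N, ‖l2cA g b m * w ^ m - l2cA g b' m * w' ^ m‖ ^ 2 +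
        (2 * l2cT g N b + 2 * l2cT g N b')) := by
  have h := l2c_pars hd hM b b' hw hw'
  have hpi := Real.pi_pos
  have h2 : ∫ θ in (0 : ℝ)..(2 * Real.pi),
      ‖g b (exp (θ * I) * w) - g b' (exp (θ * I) * w')‖ ^ 2 =
      2 * Real.pi * ∑' m, ‖l2cA g b m * w ^ m - l2cA g b' m * w' ^ m‖ ^ 2 := by
    rw [h.tsum_eq]
    generalize ∫ θ in (0 : ℝ)..(2 * Real.pi),
      ‖g b (exp (θ * I) * w) - g b' (exp (θ * I) * w')‖ ^ 2 = J
    field_simp
  rw [h2, ← h.summable.sum_add_tsum_nat_add N]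
  refine mul_le_mul_of_nonneg_left ?_ (by positivity)
  have hs1 := (summable_nat_add_iff N).2 (l2c_sq_summable hd hM b)
  have hs2 := (summable_nat_add_iff N).2 (l2c_sq_summable hd hM b')
  have h3 : ∑' m, ‖l2cA g b (m + N) * w ^ (m + N) - l2cA g b' (m + N) * w' ^ (m + N)‖ ^ 2 ≤
      ∑' m, (2 * ‖l2cA g b (m + N)‖ ^ 2 + 2 * ‖l2cA g b' (m + N)‖ ^ 2) := by
    refine Summable.tsum_le_tsum ?_ ((summable_nat_add_iff N).2 h.summable)
      ((hs1.mul_left 2).add (hs2.mul_left 2))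
    intro m
    rw [mem_ball_zero_iff] at hw hw'
    have e1 : ‖l2cA g b (m + N) * w ^ (m + N)‖ ≤ ‖l2cA g b (m + N)‖ := by
      rw [norm_mul, norm_pow]
      exact mul_le_of_le_one_right (norm_nonneg _) (pow_le_one₀ (norm_nonneg _) hw.le)
    have e2 : ‖l2cA g b' (m + N) * w' ^ (m + N)‖ ≤ ‖l2cA g b' (m + N)‖ := by
      rw [norm_mul, norm_pow]
      exact mul_le_of_le_one_right (norm_nonneg _) (pow_le_one₀ (norm_nonneg _) hw'.le)
    have e3 := norm_sub_le (l2cA g b (m + N) * w ^ (m + N)) (l2cA g b' (m + N) * w' ^ (m + N))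
    have e4 : ‖l2cA g b (m + N) * w ^ (m + N) - l2cA g b' (m + N) * w' ^ (m + N)‖ ≤
        ‖l2cA g b (m + N)‖ + ‖l2cA g b' (m + N)‖ := by linarith
    have e5 : ‖l2cA g b (m + N) * w ^ (m + N) - l2cA g b' (m + N) * w' ^ (m + N)‖ ^ 2 ≤
        (‖l2cA g b (m + N)‖ + ‖l2cA g b' (m + N)‖) ^ 2 := by gcongr
    nlinarith [sq_nonneg (‖l2cA g b (m + N)‖ - ‖l2cA g b' (m + N)‖)]
  rw [(hs1.mul_left 2).tsum_add (hs2.mul_left 2), tsum_mul_left, tsum_mul_left] at h3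
  simp only [l2cT]
  linarith

/-- the moving point -/
lemma l2c_w_mem {ζ : ℂ} (hζ : ζ ∈ ball (0 : ℂ) 1) {r : ℝ} (hr0 : 0 ≤ r) (hr1 : r < 1) :
    (ζ + r) / (1 + r * ζ) ∈ ball (0 : ℂ) 1 := by
  rw [mem_ball_zero_iff] at hζ ⊢
  have hne : (1 + r * ζ : ℂ) ≠ 0 := by
    intro h0
    have : ‖(r : ℂ) * ζ‖ = 1 := by
      have : (r : ℂ) * ζ = -1 := by linear_combination h0
      rw [this]; simp
    rw [norm_mul, Complex.norm_real, Real.norm_of_nonneg hr0] at this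
    nlinarith [norm_nonneg ζ]
  rw [norm_div, div_lt_one (norm_pos_iff.2 hne)]
  have h1 : ‖ζ + r‖ ^ 2 < ‖1 + r * ζ‖ ^ 2 := by
    rw [← Complex.normSq_eq_norm_sq, ← Complex.normSq_eq_norm_sq, Complex.normSq_apply,
      Complex.normSq_apply]
    simp only [add_re, add_im, ofReal_re, ofReal_im, mul_re, mul_im, one_re, one_im]
    have h2 : ζ.re ^ 2 + ζ.im ^ 2 < 1 := by
      have : ‖ζ‖ ^ 2 < 1 := by nlinarith [norm_nonneg ζ]
      rw [← Complex.normSq_eq_norm_sq, Complex.normSq_apply] at this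
      nlinarith
    nlinarith [mul_pos (show 0 < 1 - r ^ 2 by nlinarith) (show 0 < 1 - (ζ.re ^ 2 + ζ.im ^ 2) by
      linarith)]
  exact lt_of_pow_lt_pow_left₀ 2 (norm_nonneg _) h1

lemma l2c_main (hc : ContinuousOn (fun q : ℝ × ℂ => g q.1 q.2) (univ ×ˢ ball 0 1))
    (hd : ∀ b, DifferentiableOn ℂ (g b) (ball 0 1))
    (hM : ∀ b, ∀ z ∈ ball (0 : ℂ) 1, ‖g b z‖ ≤ M) (c₁ c₂ : ℝ) (h12 : c₁ ≤ c₂) (t : ℝ) (ζ : ℂ)
    (hζ : ζ ∈ ball (0 : ℂ) 1) :
    Tendsto (fun r : ℝ => ∫ b in c₁..c₂, ∫ θ in (0 : ℝ)..(2 * Real.pi),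
        ‖g (b + Real.sqrt (1 - r) * t) (exp (θ * I) * ((ζ + r) / (1 + r * ζ))) -
          g b (exp (θ * I) * r)‖ ^ 2) (𝓝[<] 1) (𝓝 0) := by
  have hpi := Real.pi_pos
  have hM0 : 0 ≤ M := (norm_nonneg _).trans (hM 0 0 (mem_ball_self one_pos))
  have hAc := l2cA_continuous hc hd hM
  refine tendsto_order.2 ⟨?_, ?_⟩
  · intro a ha
    refine Filter.Eventually.of_forall fun r => lt_of_lt_of_le ha ?_
    refine intervalIntegral.integral_nonneg h12 fun b _ => ?_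
    exact intervalIntegral.integral_nonneg (by positivity) fun θ _ => by positivity
  intro ε hε
  -- the tail
  have htail : Tendsto (fun N => 2 * Real.pi * (4 * ∫ x in (c₁ - |t|)..(c₂ + |t|), l2cT g N x))
      atTop (𝓝 (2 * Real.pi * (4 * 0))) :=
    ((l2cT_tendsto hc hd hM _ _).const_mul 4).const_mul _
  rw [mul_zero, mul_zero] at htail
  obtain ⟨N, hN⟩ := (htail.eventually (gt_mem_nhds (half_pos hε))).exists
  -- the finite part
  have hfin : Tendsto (fun r : ℝ => ∫ b in c₁..c₂, ∑ m ∈ Finset.range N,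
      ‖l2cA g (b + Real.sqrt (1 - r) * t) m * ((ζ + r) / (1 + r * ζ)) ^ m -
        l2cA g b m * (r : ℂ) ^ m‖ ^ 2) (𝓝[<] 1) (𝓝 (∫ _b in c₁..c₂, (0 : ℝ))) := by
    refine intervalIntegral.tendsto_integral_filter_of_dominated_convergence
      (fun _ => ∑ _m ∈ Finset.range N, (M + M) ^ 2) ?_ ?_ intervalIntegrable_const ?_
    · refine Filter.Eventually.of_forall fun r => ?_
      apply Continuous.aestronglyMeasurable
      refine continuous_finsetSum _ fun m _ => ?_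
      have e1 : Continuous fun b => l2cA g (b + Real.sqrt (1 - r) * t) m :=
        (hAc m).comp (by fun_prop)
      have e2 := hAc m
      fun_prop
    · filter_upwards [Ioo_mem_nhdsLT (show (0 : ℝ) < 1 by norm_num)] with r hr
      refine Filter.Eventually.of_forall fun b _ => ?_
      rw [Real.norm_of_nonneg (Finset.sum_nonneg fun _ _ => by positivity)]
      refine Finset.sum_le_sum fun m _ => ?_
      have hw := l2c_w_mem hζ hr.1.le hr.2
      rw [mem_ball_zero_iff] at hw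
      have e1 : ‖l2cA g (b + Real.sqrt (1 - r) * t) m * ((ζ + r) / (1 + r * ζ)) ^ m‖ ≤ M := by
        rw [norm_mul, norm_pow]
        exact (mul_le_of_le_one_right (norm_nonneg _)
          (pow_le_one₀ (norm_nonneg _) hw.le)).trans (l2c_norm_le hd hM _ _)
      have e2 : ‖l2cA g b m * (r : ℂ) ^ m‖ ≤ M := by
        rw [norm_mul, norm_pow, Complex.norm_real, Real.norm_of_nonneg hr.1.le]
        exact (mul_le_of_le_one_right (norm_nonneg _)
          (pow_le_one₀ hr.1.le hr.2.le)).trans (l2c_norm_le hd hM _ _)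
      have e3 := (norm_sub_le (l2cA g (b + Real.sqrt (1 - r) * t) m *
        ((ζ + r) / (1 + r * ζ)) ^ m) (l2cA g b m * (r : ℂ) ^ m)).trans (add_le_add e1 e2)
      gcongr
    · refine Filter.Eventually.of_forall fun b _ => ?_
      apply Tendsto.mono_left _ nhdsWithin_le_nhds
      have hζ1 : (1 + ((1 : ℝ) : ℂ) * ζ) ≠ 0 := by
        intro h0
        rw [mem_ball_zero_iff] at hζ
        have : ζ = -1 := by
          push_cast at h0
          linear_combination h0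
        rw [this] at hζ
        simp at hζ
      have hcont : ContinuousAt (fun r : ℝ => ∑ m ∈ Finset.range N,
          ‖l2cA g (b + Real.sqrt (1 - r) * t) m * ((ζ + r) / (1 + r * ζ)) ^ m -
            l2cA g b m * (r : ℂ) ^ m‖ ^ 2) 1 := by
        refine tendsto_finsetSum _ fun m _ => ?_
        have e1 : ContinuousAt (fun r : ℝ => l2cA g (b + Real.sqrt (1 - r) * t) m) 1 := by
          have : Continuous (fun r : ℝ => l2cA g (b + Real.sqrt (1 - r) * t) m) :=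
            (hAc m).comp (by fun_prop)
          exact this.continuousAt
        have e2 : ContinuousAt (fun r : ℝ => (ζ + r) / (1 + r * ζ)) 1 := by
          refine ContinuousAt.div (by fun_prop) (by fun_prop) hζ1
        have e3 : ContinuousAt (fun r : ℝ => l2cA g b m * (r : ℂ) ^ m) 1 := by fun_prop
        exact (((e1.mul (e2.pow m)).sub e3).norm.pow 2)
      have hval : (∑ m ∈ Finset.range N,
          ‖l2cA g (b + Real.sqrt (1 - (1 : ℝ)) * t) m *
            ((ζ + ((1 : ℝ) : ℂ)) / (1 + ((1 : ℝ) : ℂ) * ζ)) ^ m -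
            l2cA g b m * ((1 : ℝ) : ℂ) ^ m‖ ^ 2) = 0 := by
        apply Finset.sum_eq_zero
        intro m _
        have : (ζ + ((1 : ℝ) : ℂ)) / (1 + ((1 : ℝ) : ℂ) * ζ) = 1 := by
          rw [div_eq_one_iff_eq hζ1]; push_cast; ring
        rw [this]
        simp
      have := hcont.tendsto
      rwa [hval] at this
  rw [intervalIntegral.integral_zero] at hfin
  have hfin2 := (hfin.const_mul (2 * Real.pi)).eventually
    (gt_mem_nhds (show 2 * Real.pi * 0 < ε / 2 by rw [mul_zero]; exact half_pos hε))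
  filter_upwards [hfin2, Ioo_mem_nhdsLT (show (0 : ℝ) < 1 by norm_num)] with r hr1 hr
  set s : ℝ := Real.sqrt (1 - r) * t with hs
  have hsabs : |s| ≤ |t| := by
    rw [hs, abs_mul, abs_of_nonneg (Real.sqrt_nonneg _)]
    refine mul_le_of_le_one_left (abs_nonneg _) ?_
    exact (Real.sqrt_le_sqrt (show 1 - r ≤ 1 by linarith [hr.1])).trans_eq Real.sqrt_one
  have hs1 := (abs_le.1 hsabs).1
  have hs2 := (abs_le.1 hsabs).2
  have hw := l2c_w_mem hζ hr.1.le hr.2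
  have hrb : (r : ℂ) ∈ ball (0 : ℂ) 1 := by
    rw [mem_ball_zero_iff, Complex.norm_real, Real.norm_of_nonneg hr.1.le]; exact hr.2
  set w : ℂ := (ζ + r) / (1 + r * ζ) with hwdef
  have hIc : Continuous fun b : ℝ => ∫ θ in (0 : ℝ)..(2 * Real.pi),
      ‖g (b + s) (exp (θ * I) * w) - g b (exp (θ * I) * r)‖ ^ 2 := by
    apply intervalIntegral.continuous_parametric_intervalIntegral_of_continuous'
    have e1 : Continuous fun q : ℝ × ℝ => g (q.1 + s) (exp (q.2 * I) * w) :=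
      hc.comp_continuous (f := fun q : ℝ × ℝ => ((q.1 + s, exp (q.2 * I) * w) : ℝ × ℂ))
        (by fun_prop) (fun q => ⟨mem_univ _, l2c_mem hw q.2⟩)
    have e2 : Continuous fun q : ℝ × ℝ => g q.1 (exp (q.2 * I) * r) :=
      hc.comp_continuous (f := fun q : ℝ × ℝ => ((q.1, exp (q.2 * I) * r) : ℝ × ℂ))
        (by fun_prop) (fun q => ⟨mem_univ _, l2c_mem hrb q.2⟩)
    exact (e1.sub e2).norm.pow 2
  have hFc : Continuous fun b : ℝ => ∑ m ∈ Finset.range N,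
      ‖l2cA g (b + s) m * w ^ m - l2cA g b m * (r : ℂ) ^ m‖ ^ 2 := by
    refine continuous_finsetSum _ fun m _ => ?_
    have e1 : Continuous fun b => l2cA g (b + s) m := (hAc m).comp (by fun_prop)
    have e2 := hAc m
    fun_prop
  have hT1 : IntervalIntegrable (fun b => l2cT g N (b + s)) volume c₁ c₂ := by
    have := (l2cT_integrable hc hd hM N (c₁ + s) (c₂ + s)).comp_add_right s
    simpa using this
  have hT2 : IntervalIntegrable (fun b => l2cT g N b) volume c₁ c₂ :=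
    l2cT_integrable hc hd hM N c₁ c₂
  have hb1 : ∫ b in c₁..c₂, ∫ θ in (0 : ℝ)..(2 * Real.pi),
      ‖g (b + s) (exp (θ * I) * w) - g b (exp (θ * I) * r)‖ ^ 2 ≤
      ∫ b in c₁..c₂, 2 * Real.pi * (∑ m ∈ Finset.range N,
        ‖l2cA g (b + s) m * w ^ m - l2cA g b m * (r : ℂ) ^ m‖ ^ 2 +
        (2 * l2cT g N (b + s) + 2 * l2cT g N b)) := by
    refine intervalIntegral.integral_mono_on h12 (hIc.intervalIntegrable _ _) ?_ ?_
    · exact ((hFc.intervalIntegrable _ _).add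
        ((hT1.const_mul 2).add (hT2.const_mul 2))).const_mul _
    · intro b _
      exact l2c_split hd hM (b + s) b hw hrb N
  have hb2 : ∫ b in c₁..c₂, 2 * Real.pi * (∑ m ∈ Finset.range N,
        ‖l2cA g (b + s) m * w ^ m - l2cA g b m * (r : ℂ) ^ m‖ ^ 2 +
        (2 * l2cT g N (b + s) + 2 * l2cT g N b)) =
      2 * Real.pi * (∫ b in c₁..c₂, ∑ m ∈ Finset.range N,
        ‖l2cA g (b + s) m * w ^ m - l2cA g b m * (r : ℂ) ^ m‖ ^ 2) +
      2 * Real.pi * (2 * (∫ b in c₁..c₂, l2cT g N (b + s)) +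
        2 * ∫ b in c₁..c₂, l2cT g N b) := by
    rw [intervalIntegral.integral_const_mul,
      intervalIntegral.integral_add (hFc.intervalIntegrable _ _)
        ((hT1.const_mul 2).add (hT2.const_mul 2)),
      intervalIntegral.integral_add (hT1.const_mul 2) (hT2.const_mul 2),
      intervalIntegral.integral_const_mul, intervalIntegral.integral_const_mul, mul_add]
  have hnn : 0 ≤ᵐ[volume.restrict (Ioc (c₁ - |t|) (c₂ + |t|))] l2cT g N :=
    Filter.Eventually.of_forall fun x => l2cT_nonneg N x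
  have hIT := l2cT_integrable hc hd hM N (c₁ - |t|) (c₂ + |t|)
  have ht0 := abs_nonneg t
  have hb3 : ∫ b in c₁..c₂, l2cT g N (b + s) ≤ ∫ x in (c₁ - |t|)..(c₂ + |t|), l2cT g N x := by
    rw [intervalIntegral.integral_comp_add_right]
    exact intervalIntegral.integral_mono_interval (by linarith) (by linarith) (by linarith)
      hnn hIT
  have hb4 : ∫ b in c₁..c₂, l2cT g N b ≤ ∫ x in (c₁ - |t|)..(c₂ + |t|), l2cT g N x :=
    intervalIntegral.integral_mono_interval (by linarith) h12 (by linarith) hnn hIT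
  have hb5 : 2 * Real.pi * (2 * (∫ b in c₁..c₂, l2cT g N (b + s)) +
        2 * ∫ b in c₁..c₂, l2cT g N b) ≤
      2 * Real.pi * (4 * ∫ x in (c₁ - |t|)..(c₂ + |t|), l2cT g N x) := by
    refine mul_le_mul_of_nonneg_left ?_ (by positivity)
    linarith
  linarith

end

theorem l2c : L2cStmt := by
  intro b₁ b₂ c₁ c₂ M g h1 h2 h3 hcont hdiff hM t ζ hζ
  -- clamp the parameter
  have hle : (b₁ + c₁) / 2 ≤ (c₂ + b₂) / 2 := by linarith
  let G : ℝ → ℂ → ℂ := fun b z => g (projIcc ((b₁ + c₁) / 2) ((c₂ + b₂) / 2) hle b : ℝ) z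
  have hmem : ∀ b : ℝ, (projIcc ((b₁ + c₁) / 2) ((c₂ + b₂) / 2) hle b : ℝ) ∈ Ioo b₁ b₂ := by
    intro b
    have := (projIcc ((b₁ + c₁) / 2) ((c₂ + b₂) / 2) hle b).2
    exact ⟨by linarith [this.1], by linarith [this.2]⟩
  have hGc : ContinuousOn (fun q : ℝ × ℂ => G q.1 q.2) (univ ×ˢ ball 0 1) := by
    refine hcont.comp (f := fun q : ℝ × ℂ =>
      (((projIcc ((b₁ + c₁) / 2) ((c₂ + b₂) / 2) hle q.1 : ℝ), q.2) : ℝ × ℂ)) ?_ ?_
    · apply Continuous.continuousOn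
      refine Continuous.prodMk ?_ continuous_snd
      exact continuous_subtype_val.comp (continuous_projIcc.comp continuous_fst)
    · intro q hq
      exact ⟨hmem q.1, hq.2⟩
  have hmain := l2c_main hGc (fun b => hdiff _ (hmem b)) (fun b => hM _ (hmem b)) c₁ c₂ h2.le t ζ hζ
  refine hmain.congr' ?_
  -- for `r` close to `1` the clamp is not felt
  have hsq : Tendsto (fun r : ℝ => |Real.sqrt (1 - r) * t|) (𝓝[<] 1) (𝓝 0) := by
    apply Tendsto.mono_left _ nhdsWithin_le_nhds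
    have : Continuous (fun r : ℝ => |Real.sqrt (1 - r) * t|) := by fun_prop
    have h := this.tendsto 1
    simpa using h
  have hev := hsq.eventually (gt_mem_nhds (show 0 < min ((c₁ - b₁) / 2) ((b₂ - c₂) / 2) from
    lt_min (by linarith) (by linarith)))
  filter_upwards [hev] with r hr
  rw [lt_min_iff, abs_lt, abs_lt] at hr
  apply intervalIntegral.integral_congr
  intro b hb
  rw [uIcc_of_le h2.le] at hb
  have e1 : G b = g b := by
    change g (projIcc ((b₁ + c₁) / 2) ((c₂ + b₂) / 2) hle b : ℝ) = g b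
    rw [projIcc_of_mem hle ⟨by linarith [hb.1], by linarith [hb.2]⟩]
  have e2 : G (b + Real.sqrt (1 - r) * t) = g (b + Real.sqrt (1 - r) * t) := by
    change g (projIcc ((b₁ + c₁) / 2) ((c₂ + b₂) / 2) hle (b + Real.sqrt (1 - r) * t) : ℝ) = _
    rw [projIcc_of_mem hle ⟨by linarith [hb.1, hr.1.1], by linarith [hb.2, hr.2.2]⟩]
  simp only [e1, e2]
  simp only [mul_comm (exp _) (r : ℂ)]

end Pool.Agent.H63.TC
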