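import Pool.Agent.H63.TC.Stmts

/-!
# Module LOW: lower bound for the `L²`-norms on circles (helper90)
-/

open Complex Metric Set Filter Topology MeasureTheory

namespace Pool.Agent.H63.TC

theorem low_key (h : ℂ → ℂ) (hh : DifferentiableOn ℂ h (ball 0 1)) (r : ℝ)
    (hr : r ∈ Ico (1 / 2 : ℝ) 1) (z₀ : ℂ) (hz₀ : z₀ ∈ ball (0 : ℂ) (1 / 4)) :
    Real.pi * ‖h z₀‖ ^ 2 ≤ ∫ θ in (0 : ℝ)..(2 * Real.pi), ‖h (r * exp (θ * I))‖ ^ 2 := by
  obtain ⟨hr1, hr2⟩ := hr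
  have hr0 : 0 < r := by linarith
  have habs : |r| = r := abs_of_pos hr0
  have hsub : closedBall (0 : ℂ) |r| ⊆ ball 0 1 := by
    rw [habs]; exact closedBall_subset_ball hr2
  have hd : DiffContOnCl ℂ (fun z => h z ^ 2) (ball 0 |r|) :=
    (hh.pow 2).diffContOnCl_ball hsub
  have hz : ‖z₀‖ < 1 / 4 := by simpa using hz₀
  have hz' : z₀ ∈ ball (0 : ℂ) |r| := by
    rw [mem_ball_zero_iff, habs]; linarith
  have h1 := hd.circleAverage_smul_div hz'
  rw [Real.circleAverage_def] at h1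
  have hmap : ∀ θ : ℝ, circleMap 0 r θ = r * exp (θ * I) := fun θ => by simp [circleMap]
  have hnorm : ∀ θ : ℝ, ‖circleMap 0 r θ‖ = r := by
    intro θ; rw [norm_circleMap_zero, habs]
  have hcont : Continuous fun θ : ℝ => h (circleMap 0 r θ) := by
    refine hh.continuousOn.comp_continuous (continuous_circleMap 0 r) ?_
    intro θ
    rw [mem_ball_zero_iff, hnorm]; exact hr2
  have hne : ∀ θ : ℝ, circleMap 0 r θ - z₀ ≠ 0 := by
    intro θ h0
    have : ‖circleMap 0 r θ‖ = ‖z₀‖ := by rw [sub_eq_zero.1 h0]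
    rw [hnorm] at this
    linarith
  have hcm : Continuous (circleMap 0 r) := continuous_circleMap 0 r
  have h2 : ‖h z₀‖ ^ 2 ≤ (2 * Real.pi)⁻¹ *
      ∫ θ in (0 : ℝ)..(2 * Real.pi), 2 * ‖h (circleMap 0 r θ)‖ ^ 2 := by
    rw [← norm_pow, ← h1, norm_smul, Real.norm_of_nonneg (by positivity)]
    refine mul_le_mul_of_nonneg_left ?_ (by positivity)
    refine (intervalIntegral.norm_integral_le_integral_norm (by positivity)).trans ?_
    refine intervalIntegral.integral_mono_on (by positivity) ?_ ?_ ?_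
    · apply Continuous.intervalIntegrable
      refine Continuous.norm ?_
      exact ((hcm.sub continuous_const).div (hcm.sub continuous_const) hne).mul (hcont.pow 2)
    · apply Continuous.intervalIntegrable
      exact continuous_const.mul (hcont.norm.pow 2)
    · intro θ _
      rw [norm_smul, norm_pow]
      refine mul_le_mul_of_nonneg_right ?_ (by positivity)
      rw [norm_div, sub_zero, hnorm, div_le_iff₀ (norm_pos_iff.2 (hne θ))]
      have : ‖circleMap 0 r θ‖ - ‖z₀‖ ≤ ‖circleMap 0 r θ - z₀‖ := norm_sub_norm_le _ _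
      rw [hnorm] at this
      linarith
  rw [intervalIntegral.integral_const_mul] at h2
  have h3 : ∫ θ in (0 : ℝ)..(2 * Real.pi), ‖h (circleMap 0 r θ)‖ ^ 2 =
      ∫ θ in (0 : ℝ)..(2 * Real.pi), ‖h (r * exp (θ * I))‖ ^ 2 := by
    simp only [hmap]
  rw [h3] at h2
  have hpi := Real.pi_pos
  generalize ∫ θ in (0 : ℝ)..(2 * Real.pi), ‖h (r * exp (θ * I))‖ ^ 2 = J at h2 ⊢
  calc Real.pi * ‖h z₀‖ ^ 2 ≤ Real.pi * ((2 * Real.pi)⁻¹ * (2 * J)) :=
        mul_le_mul_of_nonneg_left h2 hpi.le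
    _ = J := by field_simp

theorem low : LowStmt := by
  intro b₁ b₂ g hb hcont hdiff hex
  obtain ⟨b₀, hb₀, z₁, hz₁, hne⟩ := hex
  -- a zero free point close to the centre
  obtain ⟨z₀, hz₀, hgz₀⟩ : ∃ z₀ ∈ ball (0 : ℂ) (1 / 4), g b₀ z₀ ≠ 0 := by
    by_contra hcon
    push Not at hcon
    apply hne
    have han : AnalyticOnNhd ℂ (g b₀) (ball 0 1) := (hdiff b₀ hb₀).analyticOnNhd isOpen_ball
    have := han.eqOn_zero_of_preconnected_of_eventuallyEq_zero (convex_ball _ _).isPreconnected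
      (mem_ball_self one_pos) (by
        filter_upwards [ball_mem_nhds (0 : ℂ) (by norm_num : (0 : ℝ) < 1 / 4)] with z hz
        exact hcon z hz)
    exact this hz₁
  have hz₀1 : z₀ ∈ ball (0 : ℂ) 1 := ball_subset_ball (by norm_num) hz₀
  -- continuity in `b`
  have hcb : ContinuousAt (fun b => ‖g b z₀‖) b₀ := by
    have h1 : ContinuousAt (fun q : ℝ × ℂ => g q.1 q.2) (b₀, z₀) :=
      hcont.continuousAt ((isOpen_Ioo.prod isOpen_ball).mem_nhds ⟨hb₀, hz₀1⟩)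
    have h2 : ContinuousAt (fun b : ℝ => (b, z₀)) b₀ := by fun_prop
    exact (ContinuousAt.comp (f := fun b : ℝ => (b, z₀)) (g := fun q : ℝ × ℂ => g q.1 q.2)
      h1 h2).norm
  have hpos : 0 < ‖g b₀ z₀‖ := norm_pos_iff.2 hgz₀
  have hev : ∀ᶠ b in 𝓝 b₀, ‖g b₀ z₀‖ / 2 < ‖g b z₀‖ ∧ b ∈ Ioo b₁ b₂ :=
    (hcb.eventually (lt_mem_nhds (by linarith))).and (isOpen_Ioo.mem_nhds hb₀)
  obtain ⟨δ, hδ, hδb⟩ := Metric.eventually_nhds_iff_ball.1 hev
  have hmem : ∀ b ∈ Icc (b₀ - δ / 2) (b₀ + δ / 2), ‖g b₀ z₀‖ / 2 < ‖g b z₀‖ ∧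
      b ∈ Ioo b₁ b₂ := by
    intro b hb
    apply hδb
    rw [mem_ball, Real.dist_eq, abs_lt]
    constructor <;> linarith [hb.1, hb.2]
  have hle : b₀ - δ / 2 ≤ b₀ + δ / 2 := by linarith
  refine ⟨b₀ - δ / 2, b₀ + δ / 2, δ * (Real.pi * (‖g b₀ z₀‖ / 2) ^ 2),
    (hmem _ ⟨le_rfl, hle⟩).2.1, by linarith, (hmem _ ⟨hle, le_rfl⟩).2.2, by positivity, ?_⟩
  intro r hr
  -- the outer function is continuous
  have hGc : Continuous (Function.uncurry fun (b θ : ℝ) =>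
      ‖g (projIcc (b₀ - δ / 2) (b₀ + δ / 2) hle b : ℝ) (r * exp (θ * I))‖ ^ 2) := by
    refine Continuous.pow (Continuous.norm ?_) 2
    have h1 : Continuous (fun q : ℝ × ℝ =>
        (((projIcc (b₀ - δ / 2) (b₀ + δ / 2) hle q.1 : ℝ), (r * exp (q.2 * I) : ℂ)) : ℝ × ℂ)) := by
      refine Continuous.prodMk ?_ (by fun_prop)
      exact continuous_subtype_val.comp (continuous_projIcc.comp continuous_fst)
    refine hcont.comp_continuous h1 ?_
    intro q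
    refine ⟨(hmem _ (projIcc _ _ hle q.1).2).2, ?_⟩
    rw [mem_ball_zero_iff, norm_mul, norm_exp_ofReal_mul_I, mul_one, Complex.norm_real,
      Real.norm_of_nonneg (by linarith [hr.1])]
    exact hr.2
  have hcontI : Continuous fun b : ℝ => ∫ θ in (0 : ℝ)..(2 * Real.pi),
      ‖g (projIcc (b₀ - δ / 2) (b₀ + δ / 2) hle b : ℝ) (r * exp (θ * I))‖ ^ 2 :=
    intervalIntegral.continuous_parametric_intervalIntegral_of_continuous' hGc _ _
  have heq : ∫ b in (b₀ - δ / 2)..(b₀ + δ / 2), ∫ θ in (0 : ℝ)..(2 * Real.pi),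
      ‖g b (r * exp (θ * I))‖ ^ 2 = ∫ b in (b₀ - δ / 2)..(b₀ + δ / 2),
      ∫ θ in (0 : ℝ)..(2 * Real.pi),
      ‖g (projIcc (b₀ - δ / 2) (b₀ + δ / 2) hle b : ℝ) (r * exp (θ * I))‖ ^ 2 := by
    apply intervalIntegral.integral_congr
    intro b hb
    rw [uIcc_of_le hle] at hb
    simp only
    rw [projIcc_of_mem hle hb]
  rw [heq]
  have hlow : ∫ _b in (b₀ - δ / 2)..(b₀ + δ / 2), Real.pi * (‖g b₀ z₀‖ / 2) ^ 2 ≤
      ∫ b in (b₀ - δ / 2)..(b₀ + δ / 2), ∫ θ in (0 : ℝ)..(2 * Real.pi),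
      ‖g (projIcc (b₀ - δ / 2) (b₀ + δ / 2) hle b : ℝ) (r * exp (θ * I))‖ ^ 2 := by
    refine intervalIntegral.integral_mono_on hle (by simp) (hcontI.intervalIntegrable _ _) ?_
    intro b hb
    rw [projIcc_of_mem hle hb]
    obtain ⟨h1, h2⟩ := hmem b hb
    refine le_trans ?_ (low_key (g b) (hdiff b h2) r hr z₀ hz₀)
    have : (‖g b₀ z₀‖ / 2) ^ 2 ≤ ‖g b z₀‖ ^ 2 := by gcongr
    exact mul_le_mul_of_nonneg_left this Real.pi_pos.le
  refine le_trans (le_of_eq ?_) hlow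
  rw [intervalIntegral.integral_const, smul_eq_mul]
  ring

end Pool.Agent.H63.TC
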