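import Pool.Agent.H63.TC.Stmts

/-!
# Module THT: automorphisms of `V` covering the translations of `YY` (helper90)
-/

open Complex Metric Set Filter Topology

namespace Pool.Agent.H63.TC

lemma tht_mem {q : ℂ × ℂ} (hq : q ∈ YY) (m n : ℤ) : (q.1, q.2 + m * q.1 + n) ∈ YY := by
  refine ⟨hq.1, ?_⟩
  intro hl
  apply hq.2
  have h1 : Lat q.1 ((m : ℂ) * q.1 + n) := lat_int _ _ _
  have h2 : q.2 + m * q.1 + n = q.2 + ((m : ℂ) * q.1 + n) := by ring
  simp only at hl
  rw [h2] at hl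
  exact (lat_add_iff h1).1 hl

/-- lifting of the translation, as a continuous map -/
lemma tht_lift (hwcv : WcvStmt) (V : Type) [TopologicalSpace V] [SimplyConnectedSpace V]
    (A : Atlas V) (W : Ell A) (m n : ℤ) (p₀ q₀ : V)
    (h₀ : W.W q₀ = ((W.W p₀).1, (W.W p₀).2 + m * (W.W p₀).1 + n)) :
    ∃ T : V → V, Continuous T ∧ T p₀ = q₀ ∧
      ∀ p, W.W (T p) = ((W.W p).1, (W.W p).2 + m * (W.W p).1 + n) := by
  have := A.locallyPathConnected
  have hc : Continuous (fun p : V =>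
      (⟨((W.W p).1, (W.W p).2 + m * (W.W p).1 + n), tht_mem (W.mem p) m n⟩ : YY)) := by
    have := W.cont
    refine Continuous.subtype_mk ?_ _
    fun_prop
  obtain ⟨F, ⟨hF0, hF⟩, -⟩ := (hwcv V A W).1.existsUnique_continuousMap_lifts
    (⟨_, hc⟩ : C(V, YY)) p₀ q₀ (Subtype.ext h₀)
  refine ⟨F, F.continuous, hF0, ?_⟩
  intro p
  have := congrArg Subtype.val (congrFun hF p)
  simpa using this

lemma tht_unique (hwcv : WcvStmt) (V : Type) [TopologicalSpace V] [SimplyConnectedSpace V]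
    (A : Atlas V) (W : Ell A) (F G : V → V) (hF : Continuous F) (hG : Continuous G)
    (h : ∀ p, W.W (F p) = W.W (G p)) (p₀ : V) (h₀ : F p₀ = G p₀) : ∀ p, F p = G p := by
  intro p
  have := (hwcv V A W).1.eqOn_of_comp_eqOn (s := (univ : Set V)) isPreconnected_univ
    hF.continuousOn hG.continuousOn (fun t _ => Subtype.ext (h t)) (mem_univ p₀) h₀
  exact this (mem_univ p)

lemma tht_hol (hphd : PhdStmt) (hwhl : WhlStmt) (V : Type) [TopologicalSpace V]
    (A : Atlas V) (W : Ell A) (m n : ℤ) (T : V → V) (hT : Continuous T)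
    (hWT : ∀ p, W.W (T p) = ((W.W p).1, (W.W p).2 + m * (W.W p).1 + n)) : A.HolSelf T := by
  refine ⟨hT, ?_⟩
  intro p
  have h1 : (fun q => A.E (T q)) =
      fun q => Phi ((W.W q).1, (W.W q).2 + m * (W.W q).1 + n) := by
    funext q
    rw [← W.Phi_W, hWT]
  have h2 := (hwhl V A W).1 p
  have h3 : DifferentiableAt ℂ (fun m' => ((W.W (A.sec p m')).1,
      (W.W (A.sec p m')).2 + m * (W.W (A.sec p m')).1 + n)) (A.E p) := by
    have e1 : DifferentiableAt ℂ (fun m' => (W.W (A.sec p m')).1) (A.E p) := h2.fst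
    have e2 : DifferentiableAt ℂ (fun m' => (W.W (A.sec p m')).2) (A.E p) := h2.snd
    exact e1.prodMk ((e2.add (e1.const_mul _)).add_const _)
  obtain ⟨-, -, -, -, -, L, hL, -⟩ := hphd _ (tht_mem (W.mem (A.sec p (A.E p))) m n)
  have h4 := DifferentiableAt.comp (g := Phi) (f := fun m' => ((W.W (A.sec p m')).1,
      (W.W (A.sec p m')).2 + m * (W.W (A.sec p m')).1 + n)) (A.E p)
      hL.hasFDerivAt.differentiableAt h3
  have h5 : (fun m' => A.E (T (A.sec p m'))) = Phi ∘ fun m' => ((W.W (A.sec p m')).1,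
      (W.W (A.sec p m')).2 + m * (W.W (A.sec p m')).1 + n) := by
    funext m'
    exact congrFun h1 (A.sec p m')
  change DifferentiableAt ℂ (fun m' => A.E (T (A.sec p m'))) (A.E p)
  rw [h5]
  exact h4

theorem tht (hwcv : WcvStmt) (hphd : PhdStmt) (hwhl : WhlStmt) : ThtStmt := by
  intro V _ _ A W m n
  obtain ⟨p₀⟩ := (inferInstance : Nonempty V)
  obtain ⟨q₀, hq₀⟩ := (hwcv V A W).2 ⟨_, tht_mem (W.mem p₀) m n⟩
  have hq₀' : W.W q₀ = ((W.W p₀).1, (W.W p₀).2 + m * (W.W p₀).1 + n) :=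
    congrArg Subtype.val hq₀
  obtain ⟨T, hTc, hT0, hWT⟩ := tht_lift hwcv V A W m n p₀ q₀ hq₀'
  obtain ⟨S, hSc, hS0, hWS⟩ := tht_lift hwcv V A W (-m) (-n) q₀ p₀ (by
    rw [hq₀']
    ext
    · rfl
    · push_cast; ring)
  have hST : ∀ p, S (T p) = p := by
    refine tht_unique hwcv V A W (fun p => S (T p)) id (hSc.comp hTc) continuous_id ?_ p₀ ?_
    · intro p
      rw [hWS, hWT]
      ext
      · rfl
      · simp only [id]; push_cast; ring
    · simp only [hT0, hS0, id]
  have hTS : ∀ p, T (S p) = p := by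
    refine tht_unique hwcv V A W (fun p => T (S p)) id (hTc.comp hSc) continuous_id ?_ q₀ ?_
    · intro p
      rw [hWT, hWS]
      ext
      · rfl
      · simp only [id]; push_cast; ring
    · simp only [hT0, hS0, id]
  let T' : V ≃ₜ V :=
    { toFun := T
      invFun := S
      left_inv := hST
      right_inv := hTS
      continuous_toFun := hTc
      continuous_invFun := hSc }
  exact ⟨T', tht_hol hphd hwhl V A W m n T hTc hWT, tht_hol hphd hwhl V A W (-m) (-n) S hSc hWS,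
    hWT⟩

end Pool.Agent.H63.TC
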