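import Pool.Agent.H63.TC.Stmts

/-!
# Module TWO: two constants on a ball of `ℂ²` (helper90)
-/

open Complex Metric Set Filter Topology

namespace Pool.Agent.H63.TC

/-- Bound of the Taylor coefficients. -/
theorem two_coeff (g : ℂ → ℂ) (hg : DifferentiableOn ℂ g (ball 0 2)) (ρ C : ℝ) (hρ : 0 < ρ)
    (hρ2 : ρ < 2) (hC : ∀ z ∈ sphere (0 : ℂ) ρ, ‖g z‖ ≤ C) (k : ℕ) :
    ‖(k.factorial : ℂ)⁻¹ • (1 - (0 : ℂ)) ^ k • iteratedDeriv k g 0‖ ≤ C * ρ⁻¹ ^ k := by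
  have h1 := Complex.norm_iteratedDeriv_le_of_forall_mem_sphere_norm_le k hρ
    (hg.diffContOnCl_ball (closedBall_subset_ball hρ2)) hC
  rw [norm_smul, norm_smul, sub_zero, one_pow, norm_one, one_mul, norm_inv, Complex.norm_natCast]
  have h2 : (0 : ℝ) < k.factorial := by exact_mod_cast Nat.factorial_pos k
  calc ((k.factorial : ℝ))⁻¹ * ‖iteratedDeriv k g 0‖
      ≤ ((k.factorial : ℝ))⁻¹ * (k.factorial * C / ρ ^ k) :=
        mul_le_mul_of_nonneg_left h1 (by positivity)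
    _ = C * ρ⁻¹ ^ k := by
        rw [inv_pow]
        field_simp

theorem two_one (ρ B : ℝ) (hρ : 0 < ρ) (hρ1 : ρ < 1) (hB : 0 ≤ B) (ε : ℝ) (hε : 0 < ε) :
    ∃ δ > 0, ∀ g : ℂ → ℂ, DifferentiableOn ℂ g (ball 0 2) → (∀ z ∈ ball (0 : ℂ) 2, ‖g z‖ ≤ B) →
    (∀ z ∈ sphere (0 : ℂ) ρ, ‖g z‖ ≤ δ) → ‖g 1‖ ≤ ε := by
  -- the tail
  have hsum : Summable fun k : ℕ => B * ((3 / 2 : ℝ)⁻¹) ^ k :=
    (summable_geometric_of_lt_one (by norm_num) (by norm_num)).mul_left B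
  have htail : Tendsto (fun N => ∑' k, B * ((3 / 2 : ℝ)⁻¹) ^ (k + N)) atTop (𝓝 0) :=
    tendsto_sum_nat_add fun k => B * ((3 / 2 : ℝ)⁻¹) ^ k
  obtain ⟨N, hN⟩ := (htail.eventually (gt_mem_nhds (half_pos hε))).exists
  have hS : 0 ≤ ∑ k ∈ Finset.range N, ρ⁻¹ ^ k :=
    Finset.sum_nonneg fun k _ => by positivity
  refine ⟨ε / 2 / (∑ k ∈ Finset.range N, ρ⁻¹ ^ k + 1), by positivity, ?_⟩
  intro g hg hgB hgδ
  set δ := ε / 2 / (∑ k ∈ Finset.range N, ρ⁻¹ ^ k + 1) with hδ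
  have hT := Complex.hasSum_taylorSeries_on_ball (r := 2) (c := 0) (f := g) (by simpa using hg)
    (z := 1) (by simp)
  have hc1 := two_coeff g hg ρ δ hρ (by linarith) hgδ
  have hc2 := two_coeff g hg (3 / 2) B (by norm_num) (by norm_num) (fun z hz => hgB z (by
    rw [mem_sphere_zero_iff_norm] at hz
    rw [mem_ball_zero_iff, hz]; norm_num))
  have hsn : Summable fun k : ℕ => ‖(k.factorial : ℂ)⁻¹ • (1 - (0 : ℂ)) ^ k •
      iteratedDeriv k g 0‖ := Summable.of_nonneg_of_le (fun _ => norm_nonneg _) hc2 hsum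
  rw [← hT.tsum_eq]
  refine (norm_tsum_le_tsum_norm hsn).trans ?_
  rw [← hsn.sum_add_tsum_nat_add N]
  have h1 : ∑ k ∈ Finset.range N, ‖(k.factorial : ℂ)⁻¹ • (1 - (0 : ℂ)) ^ k •
      iteratedDeriv k g 0‖ ≤ ε / 2 := by
    calc _ ≤ ∑ k ∈ Finset.range N, δ * ρ⁻¹ ^ k := Finset.sum_le_sum fun k _ => hc1 k
      _ = δ * ∑ k ∈ Finset.range N, ρ⁻¹ ^ k := by rw [Finset.mul_sum]
      _ ≤ δ * (∑ k ∈ Finset.range N, ρ⁻¹ ^ k + 1) := by
          refine mul_le_mul_of_nonneg_left (by linarith) ?_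
          rw [hδ]; positivity
      _ = ε / 2 := by rw [hδ]; field_simp
  have h2 : ∑' k, ‖((k + N).factorial : ℂ)⁻¹ • (1 - (0 : ℂ)) ^ (k + N) •
      iteratedDeriv (k + N) g 0‖ ≤ ∑' k, B * ((3 / 2 : ℝ)⁻¹) ^ (k + N) := by
    refine Summable.tsum_le_tsum (fun k => hc2 (k + N)) ?_ ?_
    · exact (summable_nat_add_iff N).2 hsn
    · exact (summable_nat_add_iff N).2 hsum
  linarith

theorem two : TwoStmt := by
  intro m r R B hr hrR ε hε
  have hR : 0 < R := hr.trans hrR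
  rcases lt_or_ge B 0 with hB | hB
  · refine ⟨1, one_pos, ?_⟩
    intro f _ hfB _ m' hm'
    have := hfB m (mem_ball_self hR)
    have h2 := norm_nonneg (f m)
    linarith
  obtain ⟨δ, hδ, hδ'⟩ := two_one (r / R) B (by positivity) ((div_lt_one hR).2 hrR) hB ε hε
  refine ⟨δ, hδ, ?_⟩
  intro f hf hfB hfδ m' hm'
  have hv : ‖m' - m‖ < R / 2 := by rwa [mem_ball, dist_eq_norm] at hm'
  have hline : ∀ z : ℂ, ∀ ρ : ℝ, ‖z‖ * (R / 2) ≤ ρ → 0 < ρ → m + z • (m' - m) ∈ ball m ρ := by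
    intro z ρ hz hρ
    rw [mem_ball, dist_eq_norm, add_sub_cancel_left, norm_smul]
    rcases (norm_nonneg z).eq_or_lt with h0 | h0
    · rw [← h0, zero_mul]; exact hρ
    · exact lt_of_lt_of_le (mul_lt_mul_of_pos_left hv h0) hz
  have h := hδ' (fun z => f (m + z • (m' - m))) ?_ ?_ ?_
  · simpa using h
  · refine hf.comp (by fun_prop) ?_
    intro z hz
    rw [mem_ball_zero_iff] at hz
    refine hline z R ?_ hR
    nlinarith
  · intro z hz
    rw [mem_ball_zero_iff] at hz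
    exact hfB _ (hline z R (by nlinarith) hR)
  · intro z hz
    rw [mem_sphere_zero_iff_norm] at hz
    refine hfδ _ (hline z r ?_ hr)
    rw [hz]
    have : r / R * (R / 2) = r / 2 := by field_simp
    rw [this]; linarith

end Pool.Agent.H63.TC
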