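import Pool.Agent.H63.TC.Stmts

/-!
# Module WKT: weak type estimate for functions with positive real part (helper90)
-/

open Complex Metric Set Filter Topology MeasureTheory

namespace Pool.Agent.H63.TC

theorem wkt_int (q : ℂ → ℂ) (hq : DifferentiableOn ℂ q (ball 0 1))
    (hre : ∀ z ∈ ball (0 : ℂ) 1, 0 ≤ (q z).re) (r : ℝ) (hr0 : 0 ≤ r) (hr1 : r < 1) :
    Continuous (fun θ : ℝ => 1 + q (r * exp (θ * I))) ∧
    ∫ θ in (0 : ℝ)..(2 * Real.pi), Real.sqrt (‖1 + q (r * exp (θ * I))‖ / 2) ≤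
      2 * Real.pi * Real.sqrt ‖1 + q 0‖ := by
  have habs : |r| = r := abs_of_nonneg hr0
  have hsub : closedBall (0 : ℂ) |r| ⊆ ball 0 1 := by
    rw [habs]; exact closedBall_subset_ball hr1
  have hslit : ∀ z ∈ ball (0 : ℂ) 1, 1 + q z ∈ slitPlane := by
    intro z hz
    left
    have := hre z hz
    simp only [add_re, one_re]
    linarith
  have hg : DifferentiableOn ℂ (fun z => (1 + q z) ^ (2⁻¹ : ℂ)) (ball 0 1) :=
    ((differentiableOn_const _).add hq).cpow (differentiableOn_const _) hslit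
  have hmv := (hg.diffContOnCl_ball hsub).circleAverage
  rw [Real.circleAverage_def] at hmv
  have hmap : ∀ θ : ℝ, circleMap 0 r θ = r * exp (θ * I) := fun θ => by simp [circleMap]
  simp only [hmap] at hmv
  have hmem : ∀ θ : ℝ, (r * exp (θ * I) : ℂ) ∈ ball (0 : ℂ) 1 := by
    intro θ
    rw [mem_ball_zero_iff, norm_mul, norm_exp_ofReal_mul_I, mul_one, Complex.norm_real,
      Real.norm_of_nonneg hr0]
    exact hr1
  have hc1 : Continuous (fun θ : ℝ => (r * exp (θ * I) : ℂ)) := by fun_prop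
  have hcq : Continuous (fun θ : ℝ => 1 + q (r * exp (θ * I))) :=
    continuous_const.add (hq.continuousOn.comp_continuous hc1 hmem)
  have hcg : Continuous (fun θ : ℝ => (1 + q (r * exp (θ * I))) ^ (2⁻¹ : ℂ)) :=
    hg.continuousOn.comp_continuous hc1 hmem
  refine ⟨hcq, ?_⟩
  have hre2 : ∫ θ in (0 : ℝ)..(2 * Real.pi), ((1 + q (r * exp (θ * I))) ^ (2⁻¹ : ℂ)).re =
      2 * Real.pi * ((1 + q 0) ^ (2⁻¹ : ℂ)).re := by
    have h1 : ∫ θ in (0 : ℝ)..(2 * Real.pi), ((1 + q (r * exp (θ * I))) ^ (2⁻¹ : ℂ)).re =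
        (∫ θ in (0 : ℝ)..(2 * Real.pi), (1 + q (r * exp (θ * I))) ^ (2⁻¹ : ℂ)).re :=
      (Complex.reCLM.intervalIntegral_comp_comm (hcg.intervalIntegrable _ _))
    rw [h1, ← hmv]
    rw [Complex.real_smul, Complex.re_ofReal_mul]
    have := Real.pi_pos
    generalize (∫ θ in (0 : ℝ)..(2 * Real.pi), (1 + q (r * exp (θ * I))) ^ (2⁻¹ : ℂ)).re = J
    field_simp
  have hpi := Real.pi_pos
  calc ∫ θ in (0 : ℝ)..(2 * Real.pi), Real.sqrt (‖1 + q (r * exp (θ * I))‖ / 2)
      ≤ ∫ θ in (0 : ℝ)..(2 * Real.pi), ((1 + q (r * exp (θ * I))) ^ (2⁻¹ : ℂ)).re := by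
        refine intervalIntegral.integral_mono_on (by positivity) ?_ ?_ ?_
        · apply Continuous.intervalIntegrable
          exact (hcq.norm.div_const _).sqrt
        · exact (Complex.continuous_re.comp hcg).intervalIntegrable _ _
        · intro θ _
          rw [Complex.cpow_inv_two_re]
          apply Real.sqrt_le_sqrt
          have := hre _ (hmem θ)
          simp only [add_re, one_re]
          linarith
    _ = 2 * Real.pi * ((1 + q 0) ^ (2⁻¹ : ℂ)).re := hre2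
    _ ≤ 2 * Real.pi * Real.sqrt ‖1 + q 0‖ := by
        refine mul_le_mul_of_nonneg_left ?_ (by positivity)
        rw [Complex.cpow_inv_two_re]
        apply Real.sqrt_le_sqrt
        have := Complex.re_le_norm (1 + q 0)
        linarith

theorem wkt : WktStmt := by
  intro q hq hre r Λ hr0 hr1 hΛ
  obtain ⟨hc, hint⟩ := wkt_int q hq hre r hr0 hr1
  have hpi := Real.pi_pos
  set f : ℝ → ℝ := fun θ => Real.sqrt (‖1 + q (r * exp (θ * I))‖ / 2) with hf
  have hfc : Continuous f := (hc.norm.div_const _).sqrt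
  have hfi : Integrable f (volume.restrict (Icc 0 (2 * Real.pi))) :=
    hfc.continuousOn.integrableOn_Icc
  have h1 : volume {θ ∈ Icc (0 : ℝ) (2 * Real.pi) | Λ < ‖1 + q (r * exp (θ * I))‖} ≤
      (volume.restrict (Icc 0 (2 * Real.pi)))
        {θ | ENNReal.ofReal (Real.sqrt (Λ / 2)) ≤ ENNReal.ofReal (f θ)} := by
    rw [Measure.restrict_apply' measurableSet_Icc]
    apply measure_mono
    intro θ hθ
    refine ⟨?_, hθ.1⟩
    apply ENNReal.ofReal_le_ofReal
    apply Real.sqrt_le_sqrt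
    have := hθ.2
    linarith
  have hsΛ : 0 < Real.sqrt (Λ / 2) := Real.sqrt_pos.2 (by positivity)
  have h2 : (volume.restrict (Icc 0 (2 * Real.pi)))
        {θ | ENNReal.ofReal (Real.sqrt (Λ / 2)) ≤ ENNReal.ofReal (f θ)} ≤
      (∫⁻ θ in Icc 0 (2 * Real.pi), ENNReal.ofReal (f θ)) / ENNReal.ofReal (Real.sqrt (Λ / 2)) :=
    meas_ge_le_lintegral_div hfc.measurable.ennreal_ofReal.aemeasurable
      (by rw [Ne, ENNReal.ofReal_eq_zero, not_le]; exact hsΛ) ENNReal.ofReal_ne_top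
  have h3 : ∫⁻ θ in Icc 0 (2 * Real.pi), ENNReal.ofReal (f θ) =
      ENNReal.ofReal (∫ θ in (0 : ℝ)..(2 * Real.pi), f θ) := by
    rw [intervalIntegral.integral_of_le (by positivity), ← integral_Icc_eq_integral_Ioc,
      ofReal_integral_eq_lintegral_ofReal hfi]
    exact Filter.Eventually.of_forall fun θ => Real.sqrt_nonneg _
  refine (h1.trans h2).trans ?_
  rw [h3, ← ENNReal.ofReal_div_of_pos hsΛ]
  apply ENNReal.ofReal_le_ofReal
  rw [div_le_iff₀ hsΛ]
  refine hint.trans ?_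
  have hs2 : Real.sqrt (‖1 + q 0‖ / Λ) * Real.sqrt (Λ / 2) = Real.sqrt ‖1 + q 0‖ / Real.sqrt 2 := by
    rw [← Real.sqrt_mul (by positivity), ← Real.sqrt_div (by positivity)]
    congr 1
    field_simp
  rw [mul_assoc 10, hs2]
  have h4 : 2 * Real.pi * Real.sqrt 2 ≤ 10 := by
    have e1 : Real.sqrt 2 ≤ 1.5 := by
      rw [Real.sqrt_le_left (by norm_num)]; norm_num
    have e2 := Real.pi_lt_d2
    have e3 : 0 ≤ Real.sqrt 2 := Real.sqrt_nonneg _
    nlinarith
  have h5 : 0 < Real.sqrt 2 := Real.sqrt_pos.2 (by norm_num)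
  rw [mul_div_assoc', le_div_iff₀ h5]
  have h6 := Real.sqrt_nonneg ‖1 + q 0‖
  nlinarith

end Pool.Agent.H63.TC
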