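import Pool.Agent.H63.TC.Stmts

/-!
# Parseval for absolutely convergent power series (helper90)
-/

open Complex Metric Set Filter Topology MeasureTheory

namespace Pool.Agent.H63.TC

lemma pars_int_exp (k : ℤ) :
    ∫ θ in (0 : ℝ)..(2 * Real.pi), exp (k * I * θ) = if k = 0 then 2 * Real.pi else 0 := by
  split_ifs with hk
  · subst hk
    simp
  · have hk' : (k : ℂ) * I ≠ 0 := mul_ne_zero (by exact_mod_cast hk) I_ne_zero
    rw [integral_exp_mul_complex hk']
    have : exp (k * I * ((2 * Real.pi : ℝ) : ℂ)) = 1 := by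
      rw [Complex.exp_eq_one_iff]
      exact ⟨k, by push_cast; ring⟩
    rw [this]
    simp

/-- The sum of an absolutely convergent Fourier series with nonnegative frequencies. -/
noncomputable def parsF (c : ℕ → ℂ) (θ : ℝ) : ℂ := ∑' m : ℕ, c m * exp (m * I * θ)

lemma pars_norm_exp (m : ℕ) (θ : ℝ) : ‖exp (m * I * θ)‖ = 1 := by
  have : (m : ℂ) * I * θ = ((m * θ : ℝ) : ℂ) * I := by push_cast; ring
  rw [this, norm_exp_ofReal_mul_I]

lemma pars_hasSum {c : ℕ → ℂ} (hc : Summable fun m => ‖c m‖) (θ : ℝ) :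
    HasSum (fun m : ℕ => c m * exp (m * I * θ)) (parsF c θ) := by
  apply Summable.hasSum
  apply Summable.of_norm
  refine hc.congr ?_
  intro m
  rw [norm_mul, pars_norm_exp, mul_one]

lemma pars_continuous {c : ℕ → ℂ} (hc : Summable fun m => ‖c m‖) : Continuous (parsF c) := by
  refine continuous_tsum (fun m => by fun_prop) hc ?_
  intro m θ
  rw [norm_mul, pars_norm_exp, mul_one]

lemma pars_norm_le {c : ℕ → ℂ} (hc : Summable fun m => ‖c m‖) (θ : ℝ) :
    ‖parsF c θ‖ ≤ ∑' m, ‖c m‖ := by
  have h1 : ∀ m : ℕ, ‖c m * exp (m * I * θ)‖ = ‖c m‖ := fun m => by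
    rw [norm_mul, pars_norm_exp, mul_one]
  have h2 : Summable fun m : ℕ => ‖c m * exp (m * I * θ)‖ := hc.congr fun m => (h1 m).symm
  refine (norm_tsum_le_tsum_norm h2).trans (le_of_eq ?_)
  exact tsum_congr h1

lemma pars_coeff {c : ℕ → ℂ} (hc : Summable fun m => ‖c m‖) (n : ℤ) :
    ∫ θ in (0 : ℝ)..(2 * Real.pi), exp (-(n * I * θ)) * parsF c θ =
      if 0 ≤ n then 2 * Real.pi * c n.toNat else 0 := by
  have h1 : HasSum (fun m : ℕ => ∫ θ in (0 : ℝ)..(2 * Real.pi),
      exp (-(n * I * θ)) * (c m * exp (m * I * θ)))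
      (∫ θ in (0 : ℝ)..(2 * Real.pi), exp (-(n * I * θ)) * parsF c θ) := by
    refine intervalIntegral.hasSum_integral_of_dominated_convergence (fun m _ => ‖c m‖) ?_ ?_ ?_
      ?_ ?_
    · intro m
      apply Continuous.aestronglyMeasurable
      fun_prop
    · intro m
      refine Filter.Eventually.of_forall fun θ _ => ?_
      rw [norm_mul, norm_mul, pars_norm_exp, mul_one]
      have : -((n : ℂ) * I * θ) = ((-(n * θ) : ℝ) : ℂ) * I := by push_cast; ring
      rw [this, norm_exp_ofReal_mul_I, one_mul]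
    · exact Filter.Eventually.of_forall fun θ _ => hc
    · exact intervalIntegrable_const
    · exact Filter.Eventually.of_forall fun θ _ => (pars_hasSum hc θ).mul_left _
  have h2 : ∀ m : ℕ, ∫ θ in (0 : ℝ)..(2 * Real.pi),
      exp (-(n * I * θ)) * (c m * exp (m * I * θ)) =
      if (m : ℤ) = n then 2 * Real.pi * c m else 0 := by
    intro m
    have e1 : ∀ θ : ℝ, exp (-(n * I * θ)) * (c m * exp (m * I * θ)) =
        c m * exp (((m - n : ℤ) : ℂ) * I * θ) := by
      intro θ
      have : exp (((m - n : ℤ) : ℂ) * I * θ) = exp (-(n * I * θ)) * exp (m * I * θ) := by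
        rw [← Complex.exp_add]; congr 1; push_cast; ring
      rw [this]; ring
    simp only [e1]
    rw [intervalIntegral.integral_const_mul, pars_int_exp]
    by_cases h : (m : ℤ) = n
    · rw [if_pos h, if_pos (by omega)]; push_cast; ring
    · rw [if_neg h, if_neg (by omega), ofReal_zero, mul_zero]
  simp only [h2] at h1
  split_ifs with hn
  · have h3 : HasSum (fun m : ℕ => if (m : ℤ) = n then 2 * (Real.pi : ℂ) * c m else 0)
        (2 * Real.pi * c n.toNat) := by
      have := hasSum_ite_eq n.toNat (2 * (Real.pi : ℂ) * c n.toNat)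
      refine this.congr_fun ?_
      intro m
      by_cases hm : m = n.toNat
      · subst hm
        rw [if_pos rfl, if_pos (by omega)]
      · rw [if_neg hm, if_neg (by omega)]
    exact h1.unique h3
  · have h3 : (fun m : ℕ => if (m : ℤ) = n then 2 * (Real.pi : ℂ) * c m else 0) = fun _ => 0 := by
      funext m
      rw [if_neg (by omega)]
    rw [h3] at h1
    exact h1.unique hasSum_zero

/-- **Parseval**. -/
lemma pars {c : ℕ → ℂ} (hc : Summable fun m => ‖c m‖) :
    HasSum (fun m => ‖c m‖ ^ 2)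
      ((2 * Real.pi)⁻¹ * ∫ θ in (0 : ℝ)..(2 * Real.pi), ‖parsF c θ‖ ^ 2) := by
  have hpi := Real.two_pi_pos
  have hcont := pars_continuous hc
  have hL2 : MemLp (parsF c) 2 (volume.restrict (Ioc 0 (2 * Real.pi))) := by
    refine MemLp.of_bound hcont.aestronglyMeasurable (∑' m, ‖c m‖) ?_
    exact Filter.Eventually.of_forall fun θ => pars_norm_le hc θ
  have h1 := hasSum_sq_fourierCoeffOn hpi hL2
  have hco : ∀ n : ℤ, fourierCoeffOn hpi (parsF c) n = if 0 ≤ n then c n.toNat else 0 := by
    intro n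
    rw [fourierCoeffOn_eq_integral]
    have e1 : ∀ θ : ℝ, fourier (-n) (θ : AddCircle (2 * Real.pi - 0)) • parsF c θ =
        exp (-(n * I * θ)) * parsF c θ := by
      intro θ
      rw [fourier_coe_apply, smul_eq_mul]
      congr 2
      push_cast
      have : (Real.pi : ℂ) ≠ 0 := by exact_mod_cast Real.pi_ne_zero
      field_simp
      ring
    simp only [e1]
    rw [pars_coeff hc]
    split_ifs with hn
    · rw [sub_zero, Complex.real_smul]
      have : (Real.pi : ℂ) ≠ 0 := by exact_mod_cast Real.pi_ne_zero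
      push_cast
      field_simp
    · simp
  simp only [hco] at h1
  have h2 := (Function.Injective.hasSum_iff (f := fun i : ℤ =>
    ‖(if 0 ≤ i then c i.toNat else 0 : ℂ)‖ ^ 2) (g := fun m : ℕ => (m : ℤ))
    (fun a b hab => Int.ofNat.inj hab) (fun x hx => by
      have : ¬ 0 ≤ x := fun h0 => hx ⟨x.toNat, by simp [h0]⟩
      simp [this])).2 h1
  simpa [Function.comp_def] using h2

end Pool.Agent.H63.TC
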